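import Pool.Agent.Helper45.QB.Ring1

/-!
# Project QB, module B: the theorem of Mazurkiewicz and Sierpinski for pieces

Back and forth with partial isomorphisms, which are given as relations.
-/

set_option autoImplicit false

namespace Pool.Agent.Helper33.QB

open Set

section

variable {Ω : Type} {Y Y' : Set Ω} {R R' : Set (Set Ω)} {r r' : Ω → Ordinal.{0}}

/-- `F` is an isomorphism of `D` onto `D'`. -/
structure H82St (R R' : Set (Set Ω)) (D D' : Set Ω) (F : Ω → Ω → Prop) : Prop where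
  dom : ∀ a b, F a b → a ∈ D ∧ b ∈ D'
  tot : ∀ a ∈ D, ∃ b, F a b
  sur : ∀ b ∈ D', ∃ a, F a b
  fn : ∀ a b c, F a b → F a c → b = c
  inj : ∀ a b c, F a c → F b c → a = b
  img : ∀ O ∈ R, O ⊆ D → {b | ∃ a ∈ O, F a b} ∈ R'
  pre : ∀ O ∈ R', O ⊆ D' → {a | ∃ b ∈ O, F a b} ∈ R

theorem H82St.symm {D D' : Set Ω} {F : Ω → Ω → Prop} (h : H82St R R' D D' F) :
    H82St R' R D' D (fun a b => F b a) where
  dom a b hab := ⟨(h.dom b a hab).2, (h.dom b a hab).1⟩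
  tot := h.sur
  sur := h.tot
  fn a b c h1 h2 := h.inj b c a h1 h2
  inj a b c h1 h2 := h.fn c a b h1 h2
  img := h.pre
  pre := h.img

theorem H82St.iso {D D' : Set Ω} {F : Ω → Ω → Prop} (h : H82St R R' D D' F) :
    ∃ f : Ω → Ω, Iso D R D' R' f := by
  classical
  have h1 : ∀ a, ∃ b, a ∈ D → F a b := by
    intro a
    by_cases ha : a ∈ D
    · obtain ⟨b, hb⟩ := h.tot a ha
      exact ⟨b, fun _ => hb⟩
    · exact ⟨a, fun h => absurd h ha⟩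
  choose f hf using h1
  refine ⟨f, ⟨fun a ha => (h.dom _ _ (hf a ha)).2, fun a ha b hb hab => ?_, fun b hb => ?_⟩, ?_⟩
  · have h2 := hf a ha
    rw [hab] at h2
    exact h.inj _ _ _ h2 (hf b hb)
  · obtain ⟨a, ha⟩ := h.sur b hb
    have haD := (h.dom _ _ ha).1
    exact ⟨a, haD, h.fn _ _ _ (hf a haD) ha⟩
  · intro O hO
    have e : f '' O = {b | ∃ a ∈ O, F a b} := by
      ext b
      constructor
      · rintro ⟨a, ha, rfl⟩; exact ⟨a, ha, hf a (hO ha)⟩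
      · rintro ⟨a, ha, hab⟩; exact ⟨a, ha, h.fn _ _ _ (hf a (hO ha)) hab⟩
    constructor
    · intro hOR
      rw [e]; exact h.img O hOR hO
    · intro hOR
      have h2 := h.pre _ hOR (by rintro _ ⟨a, ha, rfl⟩; exact (h.dom _ _ (hf a (hO ha))).2)
      have e2 : {a | ∃ b ∈ f '' O, F a b} = O := by
        ext a
        constructor
        · rintro ⟨b, ⟨c, hc, rfl⟩, hab⟩
          rw [h.inj _ _ _ hab (hf c (hO hc))]; exact hc
        · intro ha; exact ⟨f a, ⟨a, ha, rfl⟩, hf a (hO ha)⟩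
      rwa [e2] at h2

theorem H82St.union (hR : GR Y R r) (hR' : GR Y' R' r') {D Z D' X : Set Ω}
    {F G : Ω → Ω → Prop} (hD : D ∈ R) (hZ : Z ∈ R) (hDZ : Z ∩ D = ∅) (hD' : D' ∈ R')
    (hX : X ∈ R') (hDX : X ∩ D' = ∅) (hF : H82St R R' D D' F) (hG : H82St R R' Z X G) :
    H82St R R' (D ∪ Z) (D' ∪ X) (fun a b => F a b ∨ G a b) := by
  have d1 : ∀ a, a ∈ Z → a ∈ D → False := fun a h1 h2 => by
    have : a ∈ Z ∩ D := ⟨h1, h2⟩
    rw [hDZ] at this; exact this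
  have d2 : ∀ a, a ∈ X → a ∈ D' → False := fun a h1 h2 => by
    have : a ∈ X ∩ D' := ⟨h1, h2⟩
    rw [hDX] at this; exact this
  refine ⟨?_, ?_, ?_, ?_, ?_, ?_, ?_⟩
  · rintro a b (h | h)
    · exact ⟨Or.inl (hF.dom _ _ h).1, Or.inl (hF.dom _ _ h).2⟩
    · exact ⟨Or.inr (hG.dom _ _ h).1, Or.inr (hG.dom _ _ h).2⟩
  · rintro a (h | h)
    · obtain ⟨b, hb⟩ := hF.tot a h; exact ⟨b, Or.inl hb⟩
    · obtain ⟨b, hb⟩ := hG.tot a h; exact ⟨b, Or.inr hb⟩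
  · rintro a (h | h)
    · obtain ⟨b, hb⟩ := hF.sur a h; exact ⟨b, Or.inl hb⟩
    · obtain ⟨b, hb⟩ := hG.sur a h; exact ⟨b, Or.inr hb⟩
  · rintro a b c (h | h) (h' | h')
    · exact hF.fn _ _ _ h h'
    · exact (d1 a (hG.dom _ _ h').1 (hF.dom _ _ h).1).elim
    · exact (d1 a (hG.dom _ _ h).1 (hF.dom _ _ h').1).elim
    · exact hG.fn _ _ _ h h'
  · rintro a b c (h | h) (h' | h')
    · exact hF.inj _ _ _ h h'
    · exact (d2 c (hG.dom _ _ h').2 (hF.dom _ _ h).2).elim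
    · exact (d2 c (hG.dom _ _ h).2 (hF.dom _ _ h').2).elim
    · exact hG.inj _ _ _ h h'
  · intro O hO hOs
    have e : {b | ∃ a ∈ O, F a b ∨ G a b} =
        {b | ∃ a ∈ O ∩ D, F a b} ∪ {b | ∃ a ∈ O ∩ Z, G a b} := by
      ext b
      constructor
      · rintro ⟨a, ha, h | h⟩
        · exact Or.inl ⟨a, ⟨ha, (hF.dom _ _ h).1⟩, h⟩
        · exact Or.inr ⟨a, ⟨ha, (hG.dom _ _ h).1⟩, h⟩
      · rintro (⟨a, ha, h⟩ | ⟨a, ha, h⟩)
        · exact ⟨a, ha.1, Or.inl h⟩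
        · exact ⟨a, ha.1, Or.inr h⟩
    rw [e]
    exact hR'.un _ (hF.img _ (hR.inter hO hD) inter_subset_right) _
      (hG.img _ (hR.inter hO hZ) inter_subset_right)
  · intro O hO hOs
    have e : {a | ∃ b ∈ O, F a b ∨ G a b} =
        {a | ∃ b ∈ O ∩ D', F a b} ∪ {a | ∃ b ∈ O ∩ X, G a b} := by
      ext b
      constructor
      · rintro ⟨a, ha, h | h⟩
        · exact Or.inl ⟨a, ⟨ha, (hF.dom _ _ h).2⟩, h⟩
        · exact Or.inr ⟨a, ⟨ha, (hG.dom _ _ h).2⟩, h⟩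
      · rintro (⟨a, ha, h⟩ | ⟨a, ha, h⟩)
        · exact ⟨a, ha.1, Or.inl h⟩
        · exact ⟨a, ha.1, Or.inr h⟩
    rw [e]
    exact hR.un _ (hF.pre _ (hR'.inter hO hD') inter_subset_right) _
      (hG.pre _ (hR'.inter hO hX) inter_subset_right)

theorem h82_fwd (hR : GR Y R r) (hR' : GR Y' R' r') {ρ : Ordinal.{0}}
    (H : ∀ σ < ρ, ∀ Z Z', Piece R r σ Z → Piece R' r' σ Z' → ∃ F, H82St R R' Z Z' F)
    {K K' : Set Ω} {x x' : Ω} (hK1 : ∀ y ∈ K, y ≠ x → r y < ρ)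
    (hK' : K' ∈ R') (hx' : x' ∈ K') (hxρ' : r' x' = ρ) :
    ∀ W ∈ R, W ⊆ K → x ∉ W → ∀ D D' F, D ∈ R → D' ∈ R' → D' ⊆ K' → x' ∉ D' → W ∩ D = ∅ →
      H82St R R' D D' F → ∃ X F1, X ∈ R' ∧ D' ⊆ X ∧ X ⊆ K' ∧ x' ∉ X ∧ (∀ a b, F a b → F1 a b) ∧
        H82St R R' (D ∪ W) X F1 := by
  refine hR.pieces (Q := fun W => W ⊆ K → x ∉ W → ∀ D D' F, D ∈ R → D' ∈ R' → D' ⊆ K' →
      x' ∉ D' → W ∩ D = ∅ → H82St R R' D D' F → ∃ X F1, X ∈ R' ∧ D' ⊆ X ∧ X ⊆ K' ∧ x' ∉ X ∧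
        (∀ a b, F a b → F1 a b) ∧ H82St R R' (D ∪ W) X F1) ?_ ?_ ?_
  · intro _ _ D D' F _ hD' hDK hxD _ hF
    exact ⟨D', F, hD', subset_rfl, hDK, hxD, fun _ _ h => h, by rwa [union_empty]⟩
  · intro W1 hW1 W2 hW2 hd Q1 Q2 hWK hxW D D' F hD hD' hDK hxD hWD hF
    obtain ⟨X, F1, hX, hDX, hXK, hxX, hFF, hF1⟩ := Q1 (fun a h => hWK (Or.inl h))
      (fun h => hxW (Or.inl h)) D D' F hD hD' hDK hxD (by
        rw [eq_empty_iff_forall_notMem] at hWD ⊢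
        exact fun a h => hWD a ⟨Or.inl h.1, h.2⟩) hF
    obtain ⟨X2, F2, hX2, hDX2, hXK2, hxX2, hFF2, hF2⟩ := Q2 (fun a h => hWK (Or.inr h))
      (fun h => hxW (Or.inr h)) (D ∪ W1) X F1 (hR.un _ hD _ hW1) hX hXK hxX (by
        rw [eq_empty_iff_forall_notMem] at hWD hd ⊢
        rintro a ⟨h, h' | h'⟩
        · exact hWD a ⟨Or.inr h, h'⟩
        · exact hd a ⟨h', h⟩) hF1
    exact ⟨X2, F2, hX2, hDX.trans hDX2, hXK2, hxX2, fun a b h => hFF2 _ _ (hFF _ _ h), by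
      rwa [union_assoc] at hF2⟩
  · intro σ Z hZ hZK hxZ D D' F hD hD' hDK hxD hZD hF
    obtain ⟨hZR, z, hz, hzσ, hz1⟩ := hZ
    have hσ : σ < ρ := by
      rw [← hzσ]
      exact hK1 z (hZK hz) fun h => hxZ (h ▸ hz)
    obtain ⟨y, hy, hyσ⟩ := hR'.exact (hR'.df _ hK' _ hD') (x := x') ⟨hx', hxD⟩
      (ρ := σ) (by rw [hxρ']; exact hσ.le)
    obtain ⟨X, hX, hXs, hyX, hX1⟩ := hR'.nbhd (hR'.df _ hK' _ hD') hy
    have hxX : x' ∉ X := by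
      intro h
      by_cases e : x' = y
      · rw [← e, hxρ'] at hyσ
        exact absurd hyσ.symm hσ.ne
      · have := hX1 x' h e
        rw [hxρ', hyσ] at this
        exact absurd (this.trans hσ) (lt_irrefl _)
    obtain ⟨G, hG⟩ := H σ hσ Z X ⟨hZR, z, hz, hzσ, hz1⟩
      ⟨hX, y, hyX, hyσ, fun w hw hwy => by rw [← hyσ]; exact hX1 w hw hwy⟩
    refine ⟨D' ∪ X, fun a b => F a b ∨ G a b, hR'.un _ hD' _ hX, subset_union_left,
      union_subset hDK (hXs.trans sdiff_subset), ?_, fun a b h => Or.inl h,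
      hF.union hR hR' hD hZR hZD hD' hX ?_ hG⟩
    · rintro (h | h)
      · exact hxD h
      · exact hxX h
    · rw [eq_empty_iff_forall_notMem]
      exact fun a h => (hXs h.1).2 h.2

/-- The limit of partial isomorphisms, the image of a member of the ring. -/
theorem h82_limit (hR : GR Y R r) (hR' : GR Y' R' r') {K K' : Set Ω} {x x' : Ω}
    (hK : K ∈ R) (hK' : K' ∈ R') (hx : x ∈ K) (hx' : x' ∈ K')
    {D D' : ℕ → Set Ω} {F : ℕ → Ω → Ω → Prop} (hF : ∀ n, H82St R R' (D n) (D' n) (F n))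
    (hD : ∀ n, D n ∈ R) (hDm : Monotone D) (hFm : ∀ n m, n ≤ m → ∀ a b, F n a b → F m a b)
    (hDK : ∀ y ∈ K, y ≠ x → ∃ n, y ∈ D n) (hDK' : ∀ y ∈ K', y ≠ x' → ∃ n, y ∈ D' n)
    (hxD : ∀ n, x ∉ D n) (hxD' : ∀ n, x' ∉ D' n) (hDsK : ∀ n, D n ⊆ K)
    (hD'K : ∀ n, D' n ⊆ K') :
    ∀ O ∈ R, O ⊆ K → {b | ∃ a ∈ O, (∃ n, F n a b) ∨ (a = x ∧ b = x')} ∈ R' := by
  have key : ∀ O ∈ R, O ⊆ K → x ∉ O →
      {b | ∃ a ∈ O, (∃ n, F n a b) ∨ (a = x ∧ b = x')} ∈ R' := by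
    intro O hO hOK hxO
    obtain ⟨n, hn⟩ := hR.compact_seq hO hD hDm (fun a ha => by
      obtain ⟨n, hn⟩ := hDK a (hOK ha) (fun e => hxO (e ▸ ha))
      exact mem_iUnion.2 ⟨n, hn⟩)
    have e : {b | ∃ a ∈ O, (∃ n, F n a b) ∨ (a = x ∧ b = x')} = {b | ∃ a ∈ O, F n a b} := by
      ext b
      constructor
      · rintro ⟨a, ha, ⟨m, hm⟩ | ⟨rfl, -⟩⟩
        · obtain ⟨c, hc⟩ := (hF n).tot a (hn ha)
          have h1 := hFm n (max n m) (le_max_left _ _) a c hc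
          have h2 := hFm m (max n m) (le_max_right _ _) a b hm
          rw [(hF _).fn _ _ _ h2 h1]
          exact ⟨a, ha, hc⟩
        · exact absurd ha hxO
      · rintro ⟨a, ha, h⟩; exact ⟨a, ha, Or.inl ⟨n, h⟩⟩
    rw [e]
    exact (hF n).img O hO hn
  intro O hO hOK
  by_cases hxO : x ∈ O
  · have h1 := key (K \ O) (hR.df _ hK _ hO) sdiff_subset (fun h => h.2 hxO)
    have e : {b | ∃ a ∈ O, (∃ n, F n a b) ∨ (a = x ∧ b = x')} =
        K' \ {b | ∃ a ∈ K \ O, (∃ n, F n a b) ∨ (a = x ∧ b = x')} := by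
      ext b
      constructor
      · rintro ⟨a, ha, ⟨n, hn⟩ | ⟨rfl, rfl⟩⟩
        · refine ⟨hD'K n ((hF n).dom _ _ hn).2, ?_⟩
          rintro ⟨c, hc, ⟨m, hm⟩ | ⟨rfl, rfl⟩⟩
          · have h1 := hFm n (max n m) (le_max_left _ _) a b hn
            have h2 := hFm m (max n m) (le_max_right _ _) c b hm
            have := (hF _).inj _ _ _ h1 h2
            rw [this] at ha; exact hc.2 ha
          · exact hc.2 hxO
        · refine ⟨hx', ?_⟩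
          rintro ⟨c, hc, ⟨m, hm⟩ | ⟨rfl, -⟩⟩
          · exact hxD' m ((hF m).dom _ _ hm).2
          · exact hc.2 ha
      · rintro ⟨hb, hb2⟩
        by_cases hbx : b = x'
        · exact ⟨x, hxO, Or.inr ⟨rfl, hbx⟩⟩
        · obtain ⟨n, hn⟩ := hDK' b hb hbx
          obtain ⟨a, ha⟩ := (hF n).sur b hn
          by_cases haO : a ∈ O
          · exact ⟨a, haO, Or.inl ⟨n, ha⟩⟩
          · exact absurd ⟨a, ⟨hDsK n ((hF n).dom _ _ ha).1, haO⟩, Or.inl ⟨n, ha⟩⟩ hb2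
    rw [e]
    exact hR'.df _ hK' _ h1
  · exact key O hO hOK hxO

/-- States of the back and forth construction. -/
structure H82Good (R R' : Set (Set Ω)) (K K' : Set Ω) (x x' : Ω)
    (s : Set Ω × Set Ω × (Ω → Ω → Prop)) : Prop where
  st : H82St R R' s.1 s.2.1 s.2.2
  m1 : s.1 ∈ R
  m2 : s.2.1 ∈ R'
  s1 : s.1 ⊆ K
  s2 : s.2.1 ⊆ K'
  x1 : x ∉ s.1
  x2 : x' ∉ s.2.1

theorem H82Good.symm {K K' : Set Ω} {x x' : Ω} {s : Set Ω × Set Ω × (Ω → Ω → Prop)}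
    (h : H82Good R R' K K' x x' s) :
    H82Good R' R K' K x' x (s.2.1, s.1, fun a b => s.2.2 b a) :=
  ⟨h.st.symm, h.m2, h.m1, h.s2, h.s1, h.x2, h.x1⟩

theorem h82_ext (hR : GR Y R r) (hR' : GR Y' R' r') {ρ : Ordinal.{0}}
    (H : ∀ σ < ρ, ∀ Z Z', Piece R r σ Z → Piece R' r' σ Z' → ∃ F, H82St R R' Z Z' F)
    {K K' : Set Ω} {x x' : Ω} (hK : K ∈ R) (hK1 : ∀ y ∈ K, y ≠ x → r y < ρ) (hx : x ∈ K)
    (hK' : K' ∈ R') (hx' : x' ∈ K') (hxρ' : r' x' = ρ)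
    {s : Set Ω × Set Ω × (Ω → Ω → Prop)} (hs : H82Good R R' K K' x x' s) (y : Ω) :
    ∃ t : Set Ω × Set Ω × (Ω → Ω → Prop), H82Good R R' K K' x x' t ∧ s.1 ⊆ t.1 ∧
      s.2.1 ⊆ t.2.1 ∧ (∀ a b, s.2.2 a b → t.2.2 a b) ∧ (y ∈ K → y ≠ x → y ∈ t.1) := by
  by_cases hy : y ∈ K ∧ y ≠ x
  · obtain ⟨O, hO, hyO, hxO⟩ := hR.sep y (hR.sub _ hK hy.1) x (hR.sub _ hK hx) hy.2
    have hOK := hR.inter hO hK
    obtain ⟨X, F1, hX, hDX, hXK, hxX, hFF, hF1⟩ := h82_fwd hR hR' H hK1 hK' hx' hxρ'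
      ((O ∩ K) \ s.1) (hR.df _ hOK _ hs.m1) (sdiff_subset.trans inter_subset_right)
      (fun h => hxO h.1.1) s.1 s.2.1 s.2.2 hs.m1 hs.m2 hs.s2 hs.x2 (by
        rw [eq_empty_iff_forall_notMem]; exact fun a h => h.1.2 h.2) hs.st
    refine ⟨(s.1 ∪ ((O ∩ K) \ s.1), X, F1), ⟨hF1, hR.un _ hs.m1 _ (hR.df _ hOK _ hs.m1), hX,
      union_subset hs.s1 (sdiff_subset.trans inter_subset_right), hXK, ?_, hxX⟩,
      subset_union_left, hDX, hFF, fun _ _ => ?_⟩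
    · rintro (h | h)
      · exact hs.x1 h
      · exact hxO h.1.1
    · by_cases hys : y ∈ s.1
      · exact Or.inl hys
      · exact Or.inr ⟨⟨hyO, hy.1⟩, hys⟩
  · exact ⟨s, hs, subset_rfl, subset_rfl, fun _ _ h => h, fun h1 h2 => absurd ⟨h1, h2⟩ hy⟩

theorem h82_ms (hR : GR Y R r) (hR' : GR Y' R' r') (hY : Y.Countable) (hY' : Y'.Countable)
    (ρ : Ordinal.{0}) : ∀ K K', Piece R r ρ K → Piece R' r' ρ K' →
      ∃ F, H82St R R' K K' F := by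
  induction ρ using WellFoundedLT.induction with
  | ind ρ ih =>
    rintro K K' ⟨hK, x, hx, hxρ, hK1⟩ ⟨hK', x', hx', hxρ', hK1'⟩
    have H : ∀ σ < ρ, ∀ Z Z', Piece R r σ Z → Piece R' r' σ Z' →
      ∃ F, H82St R R' Z Z' F := fun σ hσ => ih σ hσ
    have H' : ∀ σ < ρ, ∀ Z Z', Piece R' r' σ Z → Piece R r σ Z' →
      ∃ F, H82St R' R Z Z' F := by
      intro σ hσ Z Z' hZ hZ'
      obtain ⟨F, hF⟩ := ih σ hσ Z' Z hZ' hZ
      exact ⟨_, hF.symm⟩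
    obtain ⟨e, he⟩ := (hY.mono (hR.sub _ hK)).exists_eq_range ⟨x, hx⟩
    obtain ⟨e', he'⟩ := (hY'.mono (hR'.sub _ hK')).exists_eq_range ⟨x', hx'⟩
    have step : ∀ (n : ℕ) (s : {s // H82Good R R' K K' x x' s}),
        ∃ t : {s // H82Good R R' K K' x x' s}, s.1.1 ⊆ t.1.1 ∧ s.1.2.1 ⊆ t.1.2.1 ∧
          (∀ a b, s.1.2.2 a b → t.1.2.2 a b) ∧ (e n ≠ x → e n ∈ t.1.1) ∧
          (e' n ≠ x' → e' n ∈ t.1.2.1) := by
      rintro n ⟨s, hs⟩
      obtain ⟨t, ht, h1, h2, h3, h4⟩ := h82_ext hR hR' H hK hK1 hx hK' hx' hxρ' hs (e n)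
      obtain ⟨u, hu, g1, g2, g3, g4⟩ :=
        h82_ext hR' hR H' hK' hK1' hx' hK hx hxρ ht.symm (e' n)
      refine ⟨⟨_, hu.symm⟩, h1.trans g2, h2.trans g1, fun a b h => g3 _ _ (h3 _ _ h),
        fun h => g2 (h4 (he ▸ mem_range_self n) h), fun h => g4 (he' ▸ mem_range_self n) h⟩
    choose g hg1 hg2 hg3 hg4 hg5 using step
    have good0 : H82Good R R' K K' x x' (∅, ∅, fun _ _ => False) := by
      refine ⟨⟨fun _ _ h => h.elim, fun _ h => h.elim, fun _ h => h.elim,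
        fun _ _ _ h => h.elim, fun _ _ _ h => h.elim, ?_, ?_⟩, hR.emp, hR'.emp,
        empty_subset _, empty_subset _, fun h => h, fun h => h⟩
      · intro O _ _
        have : {b : Ω | ∃ a ∈ O, (fun _ _ => False : Ω → Ω → Prop) a b} = ∅ := by
          ext b; simp
        rw [this]; exact hR'.emp
      · intro O _ _
        have : {a : Ω | ∃ b ∈ O, (fun _ _ => False : Ω → Ω → Prop) a b} = ∅ := by
          ext b; simp
        rw [this]; exact hR.emp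
    let s : ℕ → {s // H82Good R R' K K' x x' s} := fun n =>
      Nat.rec ⟨_, good0⟩ (fun n t => g n t) n
    have hs : ∀ n, s (n + 1) = g n (s n) := fun _ => rfl
    have hm1 : Monotone fun n => (s n).1.1 := monotone_nat_of_le_succ fun n => by
      change (s n).1.1 ⊆ (s (n + 1)).1.1
      rw [hs]; exact hg1 n _
    have hm2 : Monotone fun n => (s n).1.2.1 := monotone_nat_of_le_succ fun n => by
      change (s n).1.2.1 ⊆ (s (n + 1)).1.2.1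
      rw [hs]; exact hg2 n _
    have hm3 : ∀ n m, n ≤ m → ∀ a b, (s n).1.2.2 a b → (s m).1.2.2 a b := by
      intro n m hnm
      induction hnm with
      | refl => exact fun _ _ h => h
      | step _ ih => exact fun a b h => by rw [hs]; exact hg3 _ _ _ _ (ih a b h)
    have c1 : ∀ y ∈ K, y ≠ x → ∃ n, y ∈ (s n).1.1 := by
      intro y hy hyx
      rw [he] at hy
      obtain ⟨n, rfl⟩ := hy
      exact ⟨n + 1, by rw [hs]; exact hg4 n _ hyx⟩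
    have c2 : ∀ y ∈ K', y ≠ x' → ∃ n, y ∈ (s n).1.2.1 := by
      intro y hy hyx
      rw [he'] at hy
      obtain ⟨n, rfl⟩ := hy
      exact ⟨n + 1, by rw [hs]; exact hg5 n _ hyx⟩
    refine ⟨fun a b => (∃ n, (s n).1.2.2 a b) ∨ (a = x ∧ b = x'), ?_, ?_, ?_, ?_, ?_, ?_, ?_⟩
    · rintro a b (⟨n, h⟩ | ⟨rfl, rfl⟩)
      · exact ⟨(s n).2.s1 ((s n).2.st.dom _ _ h).1, (s n).2.s2 ((s n).2.st.dom _ _ h).2⟩
      · exact ⟨hx, hx'⟩
    · intro a ha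
      by_cases hax : a = x
      · exact ⟨x', Or.inr ⟨hax, rfl⟩⟩
      · obtain ⟨n, hn⟩ := c1 a ha hax
        obtain ⟨b, hb⟩ := (s n).2.st.tot a hn
        exact ⟨b, Or.inl ⟨n, hb⟩⟩
    · intro a ha
      by_cases hax : a = x'
      · exact ⟨x, Or.inr ⟨rfl, hax⟩⟩
      · obtain ⟨n, hn⟩ := c2 a ha hax
        obtain ⟨b, hb⟩ := (s n).2.st.sur a hn
        exact ⟨b, Or.inl ⟨n, hb⟩⟩
    · rintro a b c (⟨n, h⟩ | ⟨rfl, rfl⟩) (⟨m, h'⟩ | ⟨h', rfl⟩)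
      · exact (s (max n m)).2.st.fn _ _ _ (hm3 _ _ (le_max_left _ _) _ _ h)
          (hm3 _ _ (le_max_right _ _) _ _ h')
      · rw [h'] at h
        exact absurd ((s n).2.st.dom _ _ h).1 (s n).2.x1
      · exact absurd ((s m).2.st.dom _ _ h').1 (s m).2.x1
      · rfl
    · rintro a b c (⟨n, h⟩ | ⟨rfl, rfl⟩) (⟨m, h'⟩ | ⟨rfl, h'⟩)
      · exact (s (max n m)).2.st.inj _ _ _ (hm3 _ _ (le_max_left _ _) _ _ h)
          (hm3 _ _ (le_max_right _ _) _ _ h')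
      · rw [h'] at h
        exact absurd ((s n).2.st.dom _ _ h).2 (s n).2.x2
      · exact absurd ((s m).2.st.dom _ _ h').2 (s m).2.x2
      · rfl
    · exact h82_limit hR hR' hK hK' hx hx' (fun n => (s n).2.st) (fun n => (s n).2.m1) hm1 hm3
        c1 c2 (fun n => (s n).2.x1) (fun n => (s n).2.x2) (fun n => (s n).2.s1)
        (fun n => (s n).2.s2)
    · intro O hO hOK
      have h1 := h82_limit hR' hR hK' hK hx' hx (fun n => (s n).2.st.symm)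
        (fun n => (s n).2.m2) hm2 (fun n m hnm a b h => hm3 n m hnm b a h)
        c2 c1 (fun n => (s n).2.x2) (fun n => (s n).2.x1) (fun n => (s n).2.s2)
        (fun n => (s n).2.s1) O hO hOK
      refine (congrArg (fun Q => Q ∈ R) ?_).mp h1
      ext a
      constructor
      · rintro ⟨b, hb, h | ⟨h2, h3⟩⟩
        · exact ⟨b, hb, Or.inl h⟩
        · exact ⟨b, hb, Or.inr ⟨h3, h2⟩⟩
      · rintro ⟨b, hb, h | ⟨h2, h3⟩⟩
        · exact ⟨b, hb, Or.inl h⟩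
        · exact ⟨b, hb, Or.inr ⟨h3, h2⟩⟩

end

theorem ms_piece {Ω : Type} {Y Y' : Set Ω} {R R' : Set (Set Ω)} {r r' : Ω → Ordinal.{0}}
    (h : GR Y R r) (h' : GR Y' R' r') (hY : Y.Countable) (hY' : Y'.Countable)
    {ρ : Ordinal.{0}} {K K' : Set Ω}
    (hK : Piece R r ρ K) (hK' : Piece R' r' ρ K') : ∃ f : Ω → Ω, Iso K R K' R' f := by
  obtain ⟨F, hF⟩ := h82_ms h h' hY hY' ρ K K' hK hK'
  exact hF.iso

end Pool.Agent.Helper33.QB
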